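import Pool.Agent.SCX.Mirror

/-!
# Coincidences of words: tools for explicit families
-/

set_option autoImplicit false

namespace Pool.Agent.SCE

open Pool.Agent.SCX

variable {d : ℕ}

/-- The words `u`, `v` contain a common letter after prefixes with equal letter counts. -/
def Co (u v : List (Fin d)) : Prop :=
  ∃ (a : Fin d) (p q t r : List (Fin d)), u = p ++ a :: t ∧ v = q ++ a :: r ∧
    ∀ b : Fin d, p.count b = q.count b

theorem Co.symm {u v : List (Fin d)} (h : Co u v) : Co v u := by
  obtain ⟨a, p, q, t, r, h1, h2, h3⟩ := h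
  exact ⟨a, q, p, r, t, h2, h1, fun b => (h3 b).symm⟩

theorem Co.refl {u : List (Fin d)} (h : u ≠ []) : Co u u := by
  obtain ⟨a, t, rfl⟩ := List.exists_cons_of_ne_nil h
  exact ⟨a, [], [], t, t, rfl, rfl, fun _ => rfl⟩

theorem Co.append {u v : List (Fin d)} (h : Co u v) (x y : List (Fin d)) : Co (u ++ x) (v ++ y) := by
  obtain ⟨a, p, q, t, r, h1, h2, h3⟩ := h
  exact ⟨a, p, q, t ++ x, r ++ y, by rw [h1]; simp, by rw [h2]; simp, h3⟩

theorem Co.pfx {u v p q : List (Fin d)} (h : Co u v) (hc : ∀ b, p.count b = q.count b) :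
    Co (p ++ u) (q ++ v) := by
  obtain ⟨a, p', q', t, r, h1, h2, h3⟩ := h
  exact ⟨a, p ++ p', q ++ q', t, r, by rw [h1]; simp, by rw [h2]; simp, fun b => by
    rw [List.count_append, List.count_append, hc, h3]⟩

theorem Co.cons (a : Fin d) (t r : List (Fin d)) : Co (a :: t) (a :: r) :=
  ⟨a, [], [], t, r, rfl, rfl, fun _ => rfl⟩

theorem count_eq_of_cnt {p q : List (Fin d)} (h : cnt p = cnt q) (b : Fin d) :
    p.count b = q.count b := by
  have := congrFun h b
  simp only [cnt] at this
  exact_mod_cast this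

theorem cnt_eq_of_count {p q : List (Fin d)} (h : ∀ b, p.count b = q.count b) : cnt p = cnt q := by
  funext b
  simp only [cnt]
  rw [h b]

theorem Co.flatMap {u v : List (Fin d)} (h : Co u v) (σ : Fin d → List (Fin d))
    (hne : ∀ i, σ i ≠ []) : Co (u.flatMap σ) (v.flatMap σ) := by
  obtain ⟨a, p, q, t, r, h1, h2, h3⟩ := h
  obtain ⟨x, y, hx⟩ := List.exists_cons_of_ne_nil (hne a)
  rw [h1, h2, List.flatMap_append, List.flatMap_append, List.flatMap_cons, List.flatMap_cons, hx]
  refine Co.pfx (Co.cons x _ _) fun b => ?_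
  apply count_eq_of_cnt
  rw [cnt_flatMap, cnt_flatMap, cnt_eq_of_count h3]

theorem image_zero (σ : Fin d → List (Fin d)) (i : Fin d) : image σ 0 i = [i] := rfl

theorem image_succ' (σ : Fin d → List (Fin d)) (n : ℕ) (i : Fin d) :
    image σ (n + 1) i = (image σ n i).flatMap σ := by
  rw [image, image, Function.iterate_succ_apply']

theorem Co.lift {σ : Fin d → List (Fin d)} (hne : ∀ i, σ i ≠ []) {n m : ℕ} (hnm : n ≤ m)
    {i j : Fin d} (h : Co (image σ n i) (image σ n j)) : Co (image σ m i) (image σ m j) := by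
  induction m, hnm using Nat.le_induction with
  | base => exact h
  | succ m _ ih =>
    rw [image_succ', image_succ']
    exact ih.flatMap σ hne

/-- If `σ i` and `σ j` begin with `i'` and `j'`, a coincidence for `i'`, `j'` gives one for `i`, `j`. -/
theorem Co.first {σ : Fin d → List (Fin d)} {n : ℕ} {i j i' j' : Fin d} {x y : List (Fin d)}
    (hi : σ i = i' :: x) (hj : σ j = j' :: y) (h : Co (image σ n i') (image σ n j')) :
    Co (image σ (n + 1) i) (image σ (n + 1) j) := by
  rw [image_succ, image_succ, hi, hj]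
  have e1 : sub σ n (i' :: x) = image σ n i' ++ sub σ n x := by
    rw [image_eq_sub, ← sub_append]
    rfl
  have e2 : sub σ n (j' :: y) = image σ n j' ++ sub σ n y := by
    rw [image_eq_sub, ← sub_append]
    rfl
  rw [e1, e2]
  exact h.append _ _

/-- `n` copies of the word `u`. -/
def rp (n : ℕ) (u : List (Fin d)) : List (Fin d) := (List.replicate n u).flatten

theorem rp_zero (u : List (Fin d)) : rp 0 u = [] := rfl

theorem rp_succ (n : ℕ) (u : List (Fin d)) : rp (n + 1) u = u ++ rp n u := by
  rw [rp, List.replicate_succ, List.flatten_cons]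
  rfl

theorem rp_add (m n : ℕ) (u : List (Fin d)) : rp (m + n) u = rp m u ++ rp n u := by
  rw [rp, List.replicate_add, List.flatten_append]
  rfl

theorem count_rp (n : ℕ) (u : List (Fin d)) (b : Fin d) : (rp n u).count b = n * u.count b := by
  induction n with
  | zero => simp [rp_zero]
  | succ n ih =>
    rw [rp_succ, List.count_append, ih]
    ring

theorem flatMap_rp (σ : Fin d → List (Fin d)) (n : ℕ) (u : List (Fin d)) :
    (rp n u).flatMap σ = rp n (u.flatMap σ) := by
  induction n with
  | zero => rfl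
  | succ n ih => rw [rp_succ, List.flatMap_append, ih, rp_succ]

theorem rp_singleton (n : ℕ) (x : Fin d) : rp n [x] = List.replicate n x := by
  induction n with
  | zero => rfl
  | succ n ih => rw [rp_succ, ih, List.replicate_succ]; rfl

theorem co_pre {u v p q : List (Fin d)} {c : Fin d} (hu : p ++ [c] <+: u) (hv : q ++ [c] <+: v)
    (h : ∀ b, p.count b = q.count b) : Co u v := by
  obtain ⟨t, ht⟩ := hu
  obtain ⟨r, hr⟩ := hv
  exact ⟨c, p, q, t, r, by rw [← ht]; simp, by rw [← hr]; simp, h⟩

theorem pre_left {x p u : List (Fin d)} (h : p <+: u) : x ++ p <+: x ++ u :=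
  (List.prefix_append_right_inj x).2 h

theorem pre_right {p u : List (Fin d)} (x : List (Fin d)) (h : p <+: u) : p <+: u ++ x :=
  h.trans (List.prefix_append u x)

theorem pre_rp {p u : List (Fin d)} {n : ℕ} (hn : 1 ≤ n) (h : p <+: u) : p <+: rp n u := by
  obtain ⟨n', rfl⟩ : ∃ n', n = n' + 1 := ⟨n - 1, by omega⟩
  rw [rp_succ]
  exact pre_right _ h

theorem pre_rp_add {p u : List (Fin d)} {j n : ℕ} (hn : j + 1 ≤ n) (h : p <+: u) :
    rp j u ++ p <+: rp n u := by
  obtain ⟨c, rfl⟩ : ∃ c, n = j + (c + 1) := ⟨n - j - 1, by omega⟩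
  rw [rp_add]
  exact pre_left (pre_rp (by omega) h)

/-- A check of a coincidence at a position. -/
def chk (u v : List (Fin d)) (n : ℕ) : Bool :=
  match u.drop n, v.drop n with
  | a :: _, b :: _ => decide (a = b) && decide (∀ c : Fin d, (u.take n).count c = (v.take n).count c)
  | _, _ => false

theorem Co.of_chk {u v : List (Fin d)} {n : ℕ} (h : chk u v n = true) : Co u v := by
  unfold chk at h
  split at h
  · rename_i a x b y h1 h2
    rw [Bool.and_eq_true, decide_eq_true_eq, decide_eq_true_eq] at h
    obtain ⟨rfl, h3⟩ := h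
    exact ⟨a, u.take n, v.take n, x, y, by rw [← h1, List.take_append_drop],
      by rw [← h2, List.take_append_drop], h3⟩
  · exact absurd h (by simp)

theorem preAt_iff (n : ℕ) (σ : Fin d → List (Fin d)) :
    PreAt n σ ↔ ∀ i j, Co (image σ n i) (image σ n j) := Iff.rfl

theorem three_letters : ∀ x y : Fin 3, x ≠ 0 → y ≠ 0 → x ≠ y → ∀ z : Fin 3, z = 0 ∨ z = x ∨ z = y := by
  decide

/-- A word with one letter `x` and otherwise letters `0`. -/
theorem word_form {w : List (Fin 3)} {x y : Fin 3} (hx : x ≠ 0) (hy : y ≠ 0) (hxy : x ≠ y) (a : ℕ)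
    (h0 : w.count 0 = a) (h1 : w.count x = 1) (h2 : w.count y = 0) :
    ∃ k m : ℕ, k + m = a ∧ w = List.replicate k 0 ++ x :: List.replicate m 0 := by
  have hall : ∀ z : Fin 3, z = 0 ∨ z = x ∨ z = y := three_letters x y hx hy hxy
  have hmem : x ∈ w := List.count_pos_iff.1 (by omega)
  obtain ⟨s, t, rfl⟩ := List.append_of_mem hmem
  rw [List.count_append, List.count_cons_self] at h1
  rw [List.count_append, List.count_cons_of_ne hxy] at h2
  have hs : ∀ z ∈ s, z = 0 := by
    intro z hz
    rcases hall z with h | h | h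
    · exact h
    · subst h
      have := List.count_pos_iff.2 hz
      omega
    · subst h
      have := List.count_pos_iff.2 hz
      omega
  have ht : ∀ z ∈ t, z = 0 := by
    intro z hz
    rcases hall z with h | h | h
    · exact h
    · subst h
      have := List.count_pos_iff.2 hz
      omega
    · subst h
      have := List.count_pos_iff.2 hz
      omega
  have hs' := List.eq_replicate_of_mem hs
  have ht' := List.eq_replicate_of_mem ht
  refine ⟨s.length, t.length, ?_, ?_⟩
  · rw [List.count_append, List.count_cons_of_ne hx, hs', ht', List.count_replicate_self,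
      List.count_replicate_self] at h0
    exact h0
  · rw [← hs', ← ht']

end Pool.Agent.SCE
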