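import Pool.Agent.SCE.Basic

/-!
# All substitutions whose incidence matrix is a companion matrix

`S = σ 0 = 1 0^a`, `t = σ 1 = 0^k 2 0^m`, `σ 2 = 0`.
-/

set_option autoImplicit false

namespace Pool.Agent.SCE

open Pool.Agent.SCX

/-- The substitution `0 ↦ 1 0^a`, `1 ↦ 0^k 2 0^m`, `2 ↦ 0`. -/
structure Fam (σ : Fin 3 → List (Fin 3)) (a k m : ℕ) : Prop where
  h0 : σ 0 = 1 :: List.replicate a 0
  h1 : σ 1 = List.replicate k 0 ++ 2 :: List.replicate m 0
  h2 : σ 2 = [0]

variable {σ : Fin 3 → List (Fin 3)} {a k m : ℕ}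

theorem Fam.ne (h : Fam σ a k m) (i : Fin 3) : σ i ≠ [] := by
  fin_cases i
  · show σ 0 ≠ []
    rw [h.h0]
    simp
  · show σ 1 ≠ []
    rw [h.h1]
    simp
  · show σ 2 ≠ []
    rw [h.h2]
    simp

theorem Fam.S_eq (h : Fam σ a k m) : σ 0 = [1] ++ rp a [0] := by
  rw [h.h0, rp_singleton]
  rfl

theorem Fam.t_eq (h : Fam σ a k m) : σ 1 = rp k [0] ++ ([2] ++ rp m [0]) := by
  rw [h.h1, rp_singleton, rp_singleton]
  rfl

theorem flatMap_single (σ : Fin 3 → List (Fin 3)) (i : Fin 3) : [i].flatMap σ = σ i := by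
  simp

/-- The images of the words `S`, `t`, `t S^a` under any substitution `τ`. -/
theorem Fam.S_map (h : Fam σ a k m) (τ : Fin 3 → List (Fin 3)) :
    (σ 0).flatMap τ = τ 1 ++ rp a (τ 0) := by
  rw [h.S_eq, List.flatMap_append, flatMap_rp, flatMap_single, flatMap_single]

theorem Fam.t_map (h : Fam σ a k m) (τ : Fin 3 → List (Fin 3)) :
    (σ 1).flatMap τ = rp k (τ 0) ++ (τ 2 ++ rp m (τ 0)) := by
  rw [h.t_eq, List.flatMap_append, List.flatMap_append, flatMap_rp, flatMap_rp, flatMap_single,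
    flatMap_single]

theorem image_one (σ : Fin 3 → List (Fin 3)) (i : Fin 3) : image σ 1 i = σ i := by
  rw [image_succ', image_zero, flatMap_single]

theorem Fam.im20 (h : Fam σ a k m) : image σ 2 0 = σ 1 ++ rp a (σ 0) := by
  rw [image_succ', image_one, h.S_map]

theorem Fam.im21 (h : Fam σ a k m) : image σ 2 1 = rp k (σ 0) ++ ([0] ++ rp m (σ 0)) := by
  rw [image_succ', image_one, h.t_map, h.h2]

theorem Fam.im22 (h : Fam σ a k m) : image σ 2 2 = σ 0 := by
  rw [image_succ', image_one, h.h2, flatMap_single]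

theorem Fam.im30 (h : Fam σ a k m) : image σ 3 0 =
    (rp k (σ 0) ++ ([0] ++ rp m (σ 0))) ++ rp a (σ 1 ++ rp a (σ 0)) := by
  rw [image_succ', h.im20, List.flatMap_append, flatMap_rp, h.t_map, h.S_map, h.h2]

theorem Fam.im31 (h : Fam σ a k m) : image σ 3 1 =
    rp k (σ 1 ++ rp a (σ 0)) ++ (σ 0 ++ rp m (σ 1 ++ rp a (σ 0))) := by
  rw [image_succ', h.im21, List.flatMap_append, List.flatMap_append, flatMap_rp, flatMap_rp,
    h.S_map, flatMap_single]

theorem Fam.im32 (h : Fam σ a k m) : image σ 3 2 = σ 1 ++ rp a (σ 0) := by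
  rw [image_succ', h.im22, h.S_map]

theorem sub_eq_flatMap (σ : Fin 3 → List (Fin 3)) (n : ℕ) (w : List (Fin 3)) :
    sub σ n w = w.flatMap (image σ n) := by
  induction w with
  | nil =>
    have h := sub_append σ n [] []
    rw [List.append_nil] at h
    have h2 : (sub σ n []).length = 0 := by
      have := congrArg List.length h
      rw [List.length_append] at this
      omega
    rw [List.flatMap_nil]
    exact List.eq_nil_of_length_eq_zero h2
  | cons x w ih =>
    rw [List.flatMap_cons, ← ih, image_eq_sub, ← sub_append]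
    rfl

theorem image_add (σ : Fin 3 → List (Fin 3)) (n m : ℕ) (i : Fin 3) :
    image σ (n + m) i = (image σ m i).flatMap (image σ n) := by
  rw [← sub_eq_flatMap, image_eq_sub, image_eq_sub, sub, sub, sub, Function.iterate_add_apply]

theorem Fam.im50 (h : Fam σ a k m) : image σ 5 0 =
    (rp k (image σ 3 0) ++ (image σ 3 2 ++ rp m (image σ 3 0))) ++
      rp a (image σ 3 1 ++ rp a (image σ 3 0)) := by
  rw [image_add σ 3 2 0, h.im20, List.flatMap_append, flatMap_rp, h.t_map, h.S_map]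

theorem Fam.im51 (h : Fam σ a k m) : image σ 5 1 =
    rp k (image σ 3 1 ++ rp a (image σ 3 0)) ++
      (image σ 3 0 ++ rp m (image σ 3 1 ++ rp a (image σ 3 0))) := by
  rw [image_add σ 3 2 1, h.im21, List.flatMap_append, List.flatMap_append, flatMap_rp, flatMap_rp,
    h.S_map, flatMap_single]

theorem Fam.pS (h : Fam σ a k m) {x : ℕ} (hx : x ≤ a) : [1] ++ rp x [0] <+: σ 0 := by
  rw [h.S_eq]
  obtain ⟨c, rfl⟩ : ∃ c, a = x + c := ⟨a - x, by omega⟩
  rw [rp_add]
  exact pre_left (List.prefix_append _ _)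

theorem Fam.pS1 (h : Fam σ a k m) (ha : 1 ≤ a) : [1] ++ [0] <+: σ 0 := h.pS ha

theorem Fam.pS2 (h : Fam σ a k m) (ha : 2 ≤ a) : [1, 0] ++ [0] <+: σ 0 := h.pS ha

theorem Fam.cS (h : Fam σ a k m) (b : Fin 3) :
    (σ 0).count b = [1].count b + a * [0].count b := by
  rw [h.S_eq, List.count_append, count_rp]

theorem Fam.ct (h : Fam σ a k m) (b : Fin 3) :
    (σ 1).count b = (k + m) * [0].count b + [2].count b := by
  rw [h.t_eq, List.count_append, List.count_append, count_rp, count_rp]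
  ring

theorem app_assoc (x y z : List (Fin 3)) : x ++ y ++ z = x ++ (y ++ z) := List.append_assoc x y z

theorem c10 (b : Fin 3) : List.count b [1, 0] = [1].count b + [0].count b := by
  revert b
  decide

/-- Case `b < a`. -/
theorem case1 (h : Fam σ a k m) (ha : 2 ≤ a) (hk : 1 ≤ k) (hb : k + m < a) :
    Co (image σ 3 0) (image σ 3 1) := by
  rw [h.im30, h.im31]
  refine co_pre (c := 0) (p := (rp k (σ 0) ++ ([0] ++ rp m (σ 0))) ++ (σ 1 ++ [1]))
    (q := σ 1 ++ (rp (k + m) (σ 0) ++ [1, 0])) ?_ ?_ ?_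
  · rw [app_assoc, app_assoc (σ 1)]
    exact pre_left (pre_rp (by omega) (pre_left (pre_rp (by omega) (h.pS1 (by omega)))))
  · rw [app_assoc, app_assoc (rp (k + m) (σ 0))]
    exact pre_right _ (pre_rp hk (pre_left (pre_rp_add (by omega) (h.pS2 ha))))
  · intro b
    simp only [List.count_append, count_rp, c10]
    ring

/-- Case `b = a`. -/
theorem case2 (h : Fam σ a k m) (ha : 2 ≤ a) (hk : 1 ≤ k) (hb : k + m = a) :
    Co (image σ 3 0) (image σ 3 1) := by
  rw [h.im30, h.im31]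
  obtain ⟨k', rfl⟩ : ∃ k', k = k' + 1 := ⟨k - 1, by omega⟩
  refine co_pre (c := 0) (p := (rp (k' + 1) (σ 0) ++ ([0] ++ rp m (σ 0))) ++
      (rp k' (σ 1 ++ rp a (σ 0)) ++ (σ 1 ++ [1])))
    (q := rp (k' + 1) (σ 1 ++ rp a (σ 0)) ++ [1, 0]) ?_ ?_ ?_
  · rw [app_assoc, app_assoc (rp k' (σ 1 ++ rp a (σ 0))), app_assoc (σ 1)]
    exact pre_left (pre_rp_add (by omega) (pre_left (pre_rp (by omega) (h.pS1 (by omega)))))
  · rw [app_assoc]
    exact pre_left (pre_right _ (h.pS2 ha))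
  · intro b
    simp only [List.count_append, count_rp, c10, h.cS, h.ct, ← hb]
    ring

/-- Case `b = a + 1`, `k ≤ a`. -/
theorem case3 (h : Fam σ a k m) (ha : 1 ≤ a) (hk : 1 ≤ k) (hm : 1 ≤ m) (hb : k + m = a + 1) :
    Co (image σ 3 0) (image σ 3 1) := by
  rw [h.im30, h.im31]
  obtain ⟨k', rfl⟩ : ∃ k', k = k' + 1 := ⟨k - 1, by omega⟩
  obtain ⟨m', rfl⟩ : ∃ m', m = m' + 1 := ⟨m - 1, by omega⟩
  obtain rfl : a = k' + 1 + m' := by omega
  refine co_pre (c := 0) (p := (rp (k' + 1) (σ 0) ++ ([0] ++ rp (m' + 1) (σ 0))) ++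
      (rp k' (σ 1 ++ rp (k' + 1 + m') (σ 0)) ++ (rp (k' + 1) [0] ++ [2])))
    (q := rp (k' + 1) (σ 1 ++ rp (k' + 1 + m') (σ 0)) ++ ([1] ++ rp (k' + 1) [0])) ?_ ?_ ?_
  · rw [app_assoc, app_assoc (rp k' (σ 1 ++ rp (k' + 1 + m') (σ 0))), app_assoc (rp (k' + 1) [0])]
    refine pre_left (pre_rp_add (by omega) (pre_right _ ?_))
    rw [h.t_eq, rp_succ m']
    exact pre_left (pre_left (pre_right _ (List.prefix_rfl)))
  · rw [app_assoc]
    refine pre_left ?_
    by_cases hka : k' + 1 < k' + 1 + m'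
    · refine pre_right _ ?_
      rw [app_assoc]
      have h1 := h.pS (x := k' + 1 + 1) (by omega)
      rw [rp_add (k' + 1) 1] at h1
      exact h1
    · have e : k' + 1 + m' = k' + 1 := by omega
      have e2 : [1] ++ rp (k' + 1) [0] = σ 0 := by rw [h.S_eq, e]
      rw [e2]
      refine pre_left (pre_rp (by omega) (pre_right _ ?_))
      rw [h.t_eq, rp_succ k', app_assoc]
      exact List.prefix_append _ _
  · intro b
    have hcS := h.cS b
    have hct := h.ct b
    simp only [List.count_append, count_rp, hcS, hct]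
    ring

/-- Case `b = k = a + 1`. -/
theorem case4 (h : Fam σ a (a + 1) 0) (ha : 2 ≤ a) : Co (image σ 5 0) (image σ 5 1) := by
  rw [h.im50, h.im51]
  refine co_pre (c := 0)
    (p := (rp (a + 1) (image σ 3 0) ++ (image σ 3 2 ++ rp 0 (image σ 3 0))) ++
      (rp a (σ 1 ++ rp a (σ 0)) ++ (σ 1 ++ [1])))
    (q := (image σ 3 1 ++ rp a (image σ 3 0)) ++ (rp (a + 1) (σ 1 ++ rp a (σ 0)) ++ [1, 0]))
    ?_ ?_ ?_
  · rw [app_assoc, app_assoc (rp a (σ 1 ++ rp a (σ 0))), app_assoc (σ 1)]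
    refine pre_left (pre_rp (by omega) (pre_right _ ?_))
    rw [h.im31]
    exact pre_right _ (pre_rp_add (by omega) (pre_left (pre_rp (by omega) (h.pS1 (by omega)))))
  · refine pre_right _ ?_
    rw [rp_succ a (image σ 3 1 ++ rp a (image σ 3 0)), app_assoc (image σ 3 1 ++ rp a (image σ 3 0)),
      app_assoc (rp (a + 1) (σ 1 ++ rp a (σ 0)))]
    refine pre_left (pre_rp (by omega) (pre_right _ ?_))
    rw [h.im31]
    exact pre_left (pre_right _ (h.pS2 ha))
  · intro b
    simp only [List.count_append, count_rp, h.im30, h.im31, h.im32, c10, h.cS, h.ct]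
    ring

/-- Pairs at level `n` from pairs at lower levels. -/
theorem pre_of (hne : ∀ i, σ i ≠ []) {n : ℕ} (h01 : ∃ l ≤ n, Co (image σ l 0) (image σ l 1))
    (h02 : ∃ l ≤ n, Co (image σ l 0) (image σ l 2)) (h12 : ∃ l ≤ n, Co (image σ l 1) (image σ l 2)) :
    PreAt n σ := by
  rw [preAt_iff]
  obtain ⟨l1, hl1, c1⟩ := h01
  obtain ⟨l2, hl2, c2⟩ := h02
  obtain ⟨l3, hl3, c3⟩ := h12
  have d1 := Co.lift hne hl1 c1
  have d2 := Co.lift hne hl2 c2
  have d3 := Co.lift hne hl3 c3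
  have hself : ∀ i, Co (image σ n i) (image σ n i) := fun i =>
    Co.lift hne (Nat.zero_le n) (Co.refl (by rw [image_zero]; simp))
  intro i j
  fin_cases i <;> fin_cases j
  · exact hself 0
  · exact d1
  · exact d2
  · exact d1.symm
  · exact hself 1
  · exact d3
  · exact d2.symm
  · exact d3.symm
  · exact hself 2

theorem self0 (σ : Fin 3 → List (Fin 3)) (i : Fin 3) : Co (image σ 0 i) (image σ 0 i) :=
  Co.refl (by rw [image_zero]; simp)

/-- The case `k ≥ 1` from the pair `0`, `1`. -/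
theorem Fam.of_k (h : Fam σ a k m) (hk : 1 ≤ k) {n l : ℕ} (hl : l + 1 ≤ n) (hn : 1 ≤ n)
    (hc : Co (image σ l 0) (image σ l 1)) : PreAt n σ := by
  obtain ⟨k', rfl⟩ : ∃ k', k = k' + 1 := ⟨k - 1, by omega⟩
  have h1 : σ 1 = 0 :: (List.replicate k' 0 ++ 2 :: List.replicate m 0) := by
    rw [h.h1, List.replicate_succ]
    rfl
  exact pre_of h.ne ⟨l, by omega, hc⟩ ⟨l + 1, hl, Co.first h.h0 h.h2 hc.symm⟩
    ⟨1, hn, Co.first h1 h.h2 (self0 σ 0)⟩

/-- All substitutions `0 ↦ 1 0^a`, `1 ↦ 0^k 2 0^m`, `2 ↦ 0` with `a ≥ 2`. -/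
theorem Fam.big (h : Fam σ a k m) (ha : 2 ≤ a) (hb : k + m ≤ a + 1) : PreAt 15 σ := by
  by_cases hk : 1 ≤ k
  · rcases lt_trichotomy (k + m) a with h1 | h1 | h1
    · exact h.of_k hk (by norm_num) (by norm_num) (case1 h ha hk h1)
    · exact h.of_k hk (by norm_num) (by norm_num) (case2 h ha hk h1)
    · have h2 : k + m = a + 1 := by omega
      by_cases hm : 1 ≤ m
      · exact h.of_k hk (by norm_num) (by norm_num) (case3 h (by omega) hk hm h2)
      · obtain rfl : m = 0 := by omega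
        obtain rfl : k = a + 1 := by omega
        exact h.of_k hk (by norm_num) (by norm_num) (case4 h ha)
  · obtain rfl : k = 0 := by omega
    have h1 : σ 1 = 2 :: List.replicate m 0 := by
      rw [h.h1]
      rfl
    by_cases hm : 1 ≤ m
    · have c12 : Co (image σ 2 1) (image σ 2 2) := by
        rw [h.im21, h.im22]
        refine co_pre (c := 0) (p := [0] ++ [1]) (q := [1, 0]) ?_ (h.pS2 ha) (by decide)
        rw [rp_zero, List.nil_append, app_assoc]
        exact pre_left (pre_rp hm (h.pS1 (by omega)))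
      have c01 : Co (image σ 3 0) (image σ 3 1) := Co.first h.h0 h1 c12
      have c02 : Co (image σ 4 0) (image σ 4 2) := Co.first h.h0 h.h2 c01.symm
      exact pre_of h.ne ⟨3, by norm_num, c01⟩ ⟨4, by norm_num, c02⟩ ⟨2, by norm_num, c12⟩
    · obtain rfl : m = 0 := by omega
      have c02 : Co (image σ 3 0) (image σ 3 2) := by
        rw [h.im30, h.im32]
        refine co_pre (c := 0) (p := (rp 0 (σ 0) ++ ([0] ++ rp 0 (σ 0))) ++ (σ 1 ++ [1]))
          (q := σ 1 ++ [1, 0]) ?_ ?_ ?_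
        · rw [app_assoc, app_assoc (σ 1)]
          exact pre_left (pre_rp (by omega) (pre_left (pre_rp (by omega) (h.pS1 (by omega)))))
        · rw [app_assoc]
          exact pre_left (pre_rp (by omega) (h.pS2 ha))
        · intro b
          simp only [List.count_append, count_rp, c10]
          ring
      have c12 : Co (image σ 4 1) (image σ 4 2) := Co.first h1 h.h2 c02.symm
      have c01 : Co (image σ 5 0) (image σ 5 1) := Co.first h.h0 h1 c12
      exact pre_of h.ne ⟨5, by norm_num, c01⟩ ⟨3, by norm_num, c02⟩ ⟨4, by norm_num, c12⟩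

end Pool.Agent.SCE
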