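import Pool.Agent.SCE.Companion
import Pool.Agent.SCX.PisotPow

/-!
# The small companion matrices, and the theorem for all companion matrices on three letters
-/

set_option autoImplicit false

namespace Pool.Agent.SCE

open Pool.Agent.SCX Polynomial

variable {σ : Fin 3 → List (Fin 3)} {a k m : ℕ}

theorem Fam.eq_of (h : Fam σ a k m) : σ = ![1 :: List.replicate a 0,
    List.replicate k 0 ++ 2 :: List.replicate m 0, [0]] := by
  funext i
  fin_cases i
  · exact h.h0
  · exact h.h1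
  · exact h.h2

/-- All three pairs from checks at given levels. -/
theorem of_checks (f : Fin 3 → List (Fin 3)) (hne : ∀ i, f i ≠ []) (n l1 p1 l2 p2 l3 p3 : ℕ)
    (h1 : l1 ≤ n) (h2 : l2 ≤ n) (h3 : l3 ≤ n)
    (c1 : chk (image f l1 0) (image f l1 1) p1 = true)
    (c2 : chk (image f l2 0) (image f l2 2) p2 = true)
    (c3 : chk (image f l3 1) (image f l3 2) p3 = true) : PreAt n f :=
  pre_of hne ⟨l1, h1, Co.of_chk c1⟩ ⟨l2, h2, Co.of_chk c2⟩ ⟨l3, h3, Co.of_chk c3⟩

theorem Fam.small (h : Fam σ a k m) (ha : a ≤ 1) (hb : k + m ≤ a + 1) (h00 : 1 ≤ a + k + m) :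
    PreAt 15 σ := by
  have hne := h.ne
  rw [h.eq_of] at hne ⊢
  have hcases : (a = 1 ∧ k = 0 ∧ m = 0) ∨ (a = 1 ∧ k = 0 ∧ m = 1) ∨ (a = 1 ∧ k = 1 ∧ m = 0) ∨
      (a = 1 ∧ k = 0 ∧ m = 2) ∨ (a = 1 ∧ k = 1 ∧ m = 1) ∨ (a = 1 ∧ k = 2 ∧ m = 0) ∨
      (a = 0 ∧ k = 0 ∧ m = 1) ∨ (a = 0 ∧ k = 1 ∧ m = 0) := by omega
  rcases hcases with ⟨rfl, rfl, rfl⟩ | ⟨rfl, rfl, rfl⟩ | ⟨rfl, rfl, rfl⟩ | ⟨rfl, rfl, rfl⟩ |
    ⟨rfl, rfl, rfl⟩ | ⟨rfl, rfl, rfl⟩ | ⟨rfl, rfl, rfl⟩ | ⟨rfl, rfl, rfl⟩
  · exact of_checks _ hne 15 7 5 5 5 6 5 (by norm_num) (by norm_num) (by norm_num)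
      (by decide +kernel) (by decide +kernel) (by decide +kernel)
  · exact of_checks _ hne 15 4 3 4 6 3 3 (by norm_num) (by norm_num) (by norm_num)
      (by decide +kernel) (by decide +kernel) (by decide +kernel)
  · exact of_checks _ hne 15 5 19 6 19 1 0 (by norm_num) (by norm_num) (by norm_num)
      (by decide +kernel) (by decide +kernel) (by decide +kernel)
  · exact of_checks _ hne 15 3 6 4 6 3 4 (by norm_num) (by norm_num) (by norm_num)
      (by decide +kernel) (by decide +kernel) (by decide +kernel)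
  · exact of_checks _ hne 15 3 7 4 7 1 0 (by norm_num) (by norm_num) (by norm_num)
      (by decide +kernel) (by decide +kernel) (by decide +kernel)
  · exact of_checks _ hne 15 5 38 6 38 1 0 (by norm_num) (by norm_num) (by norm_num)
      (by decide +kernel) (by decide +kernel) (by decide +kernel)
  · exact of_checks _ hne 15 12 17 13 17 14 17 (by norm_num) (by norm_num) (by norm_num)
      (by decide +kernel) (by decide +kernel) (by decide +kernel)
  · exact of_checks _ hne 15 14 47 15 47 1 0 (by norm_num) (by norm_num) (by norm_num)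
      (by decide +kernel) (by decide +kernel) (by decide +kernel)

/-- The companion matrix of `x³ - a x² - b x - 1`. -/
def Mab (a b : ℕ) : Matrix (Fin 3) (Fin 3) ℕ := !![a, b, 1; 1, 0, 0; 0, 1, 0]

theorem eval_Mab (a b : ℕ) (z : ℂ) :
    aeval z ((Mab a b).map (Nat.cast : ℕ → ℚ)).charpoly = z ^ 3 - a * z ^ 2 - b * z - 1 := by
  have h1 : aeval z ((Mab a b).map (Nat.cast : ℕ → ℚ)).charpoly =
      ((Mab a b).map (Nat.cast : ℕ → ℂ)).charpoly.eval z := by
    rw [charpoly_cast, eval_map_algebraMap]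
  rw [h1, Matrix.eval_charpoly, Matrix.det_fin_three]
  simp [Mab, Matrix.scalar_apply, Matrix.diagonal]
  ring

/-- A companion matrix of the class has `b ≤ a + 1`. -/
theorem pisot_Mab {a b : ℕ} (h : IsPisot (Mab a b)) : b ≤ a + 1 ∧ 1 ≤ a + b := by
  obtain ⟨_, _, r, hr, _, hz⟩ := h
  have key : ∀ x : ℝ, x ^ 3 - a * x ^ 2 - b * x - 1 = 0 → x ≤ 1 → |x| < 1 := by
    intro x hx hx1
    have h1 := hz (x : ℂ) (by
      rw [eval_Mab]
      exact_mod_cast hx) (by
      intro hxr
      have : x = r := by exact_mod_cast hxr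
      linarith)
    rwa [Complex.norm_real, Real.norm_eq_abs] at h1
  constructor
  · by_contra hcon
    push Not at hcon
    have hb : (a : ℝ) + 2 ≤ b := by exact_mod_cast hcon
    have ha0 : (0 : ℝ) ≤ a := Nat.cast_nonneg a
    have hcont : Continuous fun x : ℝ => x ^ 3 - a * x ^ 2 - b * x - 1 := by fun_prop
    have hlow : ((-(b : ℝ) - 1) ^ 3 - a * (-(b : ℝ) - 1) ^ 2 - b * (-(b : ℝ) - 1) - 1) ≤ 0 := by
      nlinarith [sq_nonneg ((b : ℝ) + 1), mul_nonneg ha0 (sq_nonneg ((b : ℝ) + 1))]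
    have hhigh : (0 : ℝ) ≤ ((-1 : ℝ) ^ 3 - a * (-1) ^ 2 - b * (-1) - 1) := by
      norm_num
      linarith
    obtain ⟨x, ⟨hx1, hx2⟩, hx⟩ := intermediate_value_Icc
      (show (-(b : ℝ) - 1) ≤ -1 by linarith) hcont.continuousOn
      (show (0 : ℝ) ∈ Set.Icc _ _ from ⟨hlow, hhigh⟩)
    have h1 := key x hx (by linarith)
    rw [abs_lt] at h1
    linarith
  · by_contra hcon
    obtain ⟨rfl, rfl⟩ : a = 0 ∧ b = 0 := by omega
    have h1 := key 1 (by norm_num) le_rfl
    norm_num at h1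

/-- Prefix coincidence for every substitution with a companion matrix. -/
theorem companion_prefix {a b : ℕ} (hb : b ≤ a + 1) (h00 : 1 ≤ a + b)
    (hσ : σ ∈ Subs (Mab a b)) : PreAt 15 σ := by
  have e00 : (σ 0).count 0 = a := hσ 0 0
  have e10 : (σ 0).count 1 = 1 := hσ 1 0
  have e20 : (σ 0).count 2 = 0 := hσ 2 0
  have e01 : (σ 1).count 0 = b := hσ 0 1
  have e11 : (σ 1).count 1 = 0 := hσ 1 1
  have e21 : (σ 1).count 2 = 1 := hσ 2 1
  have e02 : (σ 2).count 0 = 1 := hσ 0 2
  have e12 : (σ 2).count 1 = 0 := hσ 1 2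
  have e22 : (σ 2).count 2 = 0 := hσ 2 2
  obtain ⟨k₀, m₀, hkm₀, h0⟩ := word_form (x := 1) (y := 2) (by decide) (by decide) (by decide) a
    e00 e10 e20
  obtain ⟨k, m, hkm, h1⟩ := word_form (x := 2) (y := 1) (by decide) (by decide) (by decide) b
    e01 e21 e11
  have h2 : σ 2 = [0] := by
    have hall : ∀ z ∈ σ 2, z = 0 := by
      intro z hz
      have hpos := List.count_pos_iff.2 hz
      rcases three_letters 1 2 (by decide) (by decide) (by decide) z with h | h | h
      · exact h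
      · rw [h] at hpos
        omega
      · rw [h] at hpos
        omega
    have h3 := List.eq_replicate_of_mem hall
    have h4 : (σ 2).length = 1 := by
      rw [h3, List.count_replicate_self] at e02
      exact e02
    rw [h3, h4]
    rfl
  by_cases hk₀ : k₀ = 0
  · subst hk₀
    have hF : Fam σ a k m := ⟨by
      rw [h0]
      have : m₀ = a := by omega
      rw [this]
      rfl, h1, h2⟩
    by_cases ha : 2 ≤ a
    · exact hF.big ha (by omega)
    · exact hF.small (by omega) (by omega) (by omega)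
  · -- `σ 0` begins with `0`
    obtain ⟨k', rfl⟩ : ∃ k', k₀ = k' + 1 := ⟨k₀ - 1, by omega⟩
    have h0' : σ 0 = 0 :: (List.replicate k' 0 ++ 1 :: List.replicate m₀ 0) := by
      rw [h0, List.replicate_succ]
      rfl
    have hne : ∀ i, σ i ≠ [] := by
      intro i
      fin_cases i
      · show σ 0 ≠ []
        rw [h0']
        simp
      · show σ 1 ≠ []
        rw [h1]
        simp
      · show σ 2 ≠ []
        rw [h2]
        simp
    have c02 : Co (image σ 1 0) (image σ 1 2) := Co.first h0' h2 (self0 σ 0)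
    by_cases hk : k = 0
    · subst hk
      have h1' : σ 1 = 2 :: List.replicate m 0 := by
        rw [h1]
        rfl
      exact pre_of hne ⟨2, by norm_num, Co.first h0' h1' c02⟩ ⟨1, by norm_num, c02⟩
        ⟨2, by norm_num, Co.first h1' h2 c02.symm⟩
    · obtain ⟨k'', rfl⟩ : ∃ k'', k = k'' + 1 := ⟨k - 1, by omega⟩
      have h1' : σ 1 = 0 :: (List.replicate k'' 0 ++ 2 :: List.replicate m 0) := by
        rw [h1, List.replicate_succ]
        rfl
      exact pre_of hne ⟨1, by norm_num, Co.first h0' h1' (self0 σ 0)⟩ ⟨1, by norm_num, c02⟩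
        ⟨1, by norm_num, Co.first h1' h2 (self0 σ 0)⟩

/-- Strong coincidence for every substitution with a companion matrix of the class. -/
theorem companion {a b : ℕ} (hM : IsPisot (Mab a b)) (hσ : σ ∈ Subs (Mab a b)) :
    StrongCoincidenceAt 15 σ := by
  obtain ⟨hb, h00⟩ := pisot_Mab hM
  exact both 15 σ (companion_prefix hb h00 hσ) (companion_prefix hb h00 (mir_mem _ hσ))

end Pool.Agent.SCE
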